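import Mathlib

/-!
Clubs below a point of a well-order, normal sequences, and club guessing.
-/

set_option autoImplicit false
set_option linter.unusedSectionVars false

namespace Pool.Agent.Lib.MP_e7ecb4_lc.Sh

open Cardinal Order Set

universe u

variable {W K : Type u} [LinearOrder W] [WellFoundedLT W] [LinearOrder K] [WellFoundedLT K]

theorem bd {Z : Set W} (h : #Z < cof W) : ∃ b, ∀ z ∈ Z, z < b := by
  rw [← not_isCofinal_iff]
  exact fun hc => (cof_le hc).not_gt h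

theorem bd_range {ι : Type u} (g : ι → W) (h : #ι < cof W) : ∃ b, ∀ i, g i < b := by
  obtain ⟨b, hb⟩ := bd (Z := range g) (mk_range_le.trans_lt h)
  exact ⟨b, fun i => hb _ ⟨i, rfl⟩⟩

theorem bd_seq (g : ℕ → W) (h : ℵ₀ < cof W) : ∃ b, ∀ n, g n < b := by
  obtain ⟨b, hb⟩ := bd (Z := range g) ((countable_range g).le_aleph0.trans_lt h)
  exact ⟨b, fun i => hb _ ⟨i, rfl⟩⟩

theorem exists_lub {Z : Set W} {b : W} (h : ∀ z ∈ Z, z ≤ b) : ∃ d, IsLUB Z d := by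
  obtain ⟨d, hd, hm⟩ := (wellFounded_lt (α := W)).has_min (upperBounds Z) ⟨b, h⟩
  exact ⟨d, hd, fun c hc => not_lt.1 (hm c hc)⟩

theorem exists_rec {β : Type*} (F : (j : K) → ((i : K) → i < j → β) → β) :
    ∃ e : K → β, ∀ j, e j = F j (fun i _ => e i) :=
  ⟨wellFounded_lt.fix F, fun j => wellFounded_lt.fix_eq F j⟩

/-- Cofinal below `δ`. -/
def Cf (δ : W) (A : Set W) : Prop := ∀ β < δ, ∃ a ∈ A, β ≤ a ∧ a < δ

/-- Closed and cofinal below `δ`. -/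
def Cb (δ : W) (A : Set W) : Prop :=
  (∀ γ < δ, ∀ Z ⊆ A, Z.Nonempty → IsLUB Z γ → γ ∈ A) ∧ Cf δ A

theorem exists_small (δ : W) :
    ∃ A : Set W, A ⊆ Iio δ ∧ Cb δ A ∧ ∀ Y : Set W, Cf δ Y → #A ≤ #Y + #Y := by
  obtain ⟨_, ⟨Y, hY, rfl⟩, hmin⟩ := (wellFounded_lt (α := Cardinal.{u})).has_min
    ((fun Y : Set W => #Y) '' {Y | Cf δ Y}) ⟨_, Iio δ, fun β hβ => ⟨β, hβ, le_rfl, hβ⟩, rfl⟩
  refine ⟨{γ | γ < δ ∧ (Y ∩ Iic γ).Nonempty ∧ IsLUB (Y ∩ Iic γ) γ}, fun γ h => h.1,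
    ⟨fun γ hγ Z hZ ⟨z, hz⟩ hl => ⟨hγ, ?_, fun y hy => hy.2, fun b hb => hl.2 fun x hx => ?_⟩,
      fun β hβ => ?_⟩, fun Y' hY' => ?_⟩
  · obtain ⟨y, hy⟩ := (hZ hz).2.1
    exact ⟨y, hy.1, le_trans hy.2 (hl.1 hz)⟩
  · exact (hZ hx).2.2.2 fun y hy => hb ⟨hy.1, le_trans hy.2 (hl.1 hx)⟩
  · obtain ⟨a, ha, h1, h2⟩ := hY β hβ
    exact ⟨a, ⟨h2, ⟨a, ha, le_rfl⟩, fun y hy => hy.2, fun b hb => hb ⟨ha, le_rfl⟩⟩, h1, h2⟩
  · have h1 : #Y ≤ #Y' := not_lt.1 (hmin _ ⟨Y', hY', rfl⟩)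
    choose l hl using fun y : Y => exists_lub (Z := Y ∩ Iio y) (b := y) (fun z hz => hz.2.le)
    refine le_trans (mk_le_mk_of_subset (t := Y ∪ range l) ?_)
      ((mk_union_le _ _).trans (add_le_add h1 (mk_range_le.trans h1)))
    rintro γ ⟨hγ, -, hlub⟩
    by_cases hm : γ ∈ Y
    · exact Or.inl hm
    obtain ⟨a, ha, h2, -⟩ := hY γ hγ
    obtain ⟨y, hy, hym⟩ := (wellFounded_lt (α := W)).has_min {y ∈ Y | γ ≤ y} ⟨a, ha, h2⟩
    refine Or.inr ⟨⟨y, hy.1⟩, (hl _).unique ?_⟩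
    have : Y ∩ Iio y = Y ∩ Iic γ := by
      ext x
      refine and_congr_right fun hx => ⟨fun h => ?_, fun h => ?_⟩
      · by_contra hc
        exact hym x ⟨hx, (not_le.1 hc).le⟩ h
      · exact lt_of_lt_of_le (lt_of_le_of_ne h (fun e => hm (e ▸ hx))) hy.2
    rwa [this]

theorem club_preimage {e : K → W} (he : IsNormal e) {δ : W} (h1 : ∀ i, e i < δ)
    (h2 : ∀ β < δ, ∃ i, β < e i) (hK : ℵ₀ < cof K) {A : Set W} (hA : Cb δ A) :
    IsClub (e ⁻¹' A) := by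
  refine ⟨fun Z hZ hne _ i hi => hA.1 _ (h1 i) _ (image_subset_iff.2 hZ) (hne.image e)
    (he.map_isLUB hi hne), fun i0 => ?_⟩
  choose a haA ha1 ha2 using fun i => hA.2 _ (h1 i)
  choose nx hnx using fun i => h2 _ (ha2 i)
  obtain ⟨b, hb⟩ := bd_seq (fun n => nx^[n] i0) hK
  obtain ⟨i, hi⟩ := exists_lub (Z := range fun n => nx^[n] i0) (b := b)
    (by rintro _ ⟨n, rfl⟩; exact (hb n).le)
  have h3 := he.map_isLUB hi (range_nonempty _)
  refine ⟨i, hA.1 _ (h1 i) (range fun n => a (nx^[n] i0)) ?_ (range_nonempty _) ⟨?_, ?_⟩,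
    hi.1 ⟨0, rfl⟩⟩
  · rintro _ ⟨n, rfl⟩; exact haA _
  · rintro _ ⟨n, rfl⟩
    refine (hnx _).le.trans (h3.1 ⟨_, ⟨n + 1, ?_⟩, rfl⟩)
    exact Function.iterate_succ_apply' _ _ _
  · intro c hc
    refine h3.2 ?_
    rintro _ ⟨_, ⟨n, rfl⟩, rfl⟩
    exact (ha1 _).trans (hc ⟨n, rfl⟩)

theorem exists_normal (hK : ℵ₀ ≤ cof K) (hW : #K < cof W) (G : K → (K → W) → W)
    (hG : ∀ i e e', (∀ k ≤ i, e k = e' k) → G i e = G i e') :
    ∃ (e : K → W) (δ : W), IsNormal e ∧ (∀ i j, i < j → G i e < e j) ∧ (∀ i, e i < δ) ∧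
      ∀ β < δ, ∃ i, β < e i := by
  classical
  have hK1 : (1 : Cardinal) < cof K := one_lt_aleph0.trans_le hK
  have hW1 : (1 : Cardinal) < cof W := (hK1.trans_le (cof_le_cardinalMk K)).trans hW
  choose nx hnx using fun x : W => bd (Z := {x}) (by simpa using hW1)
  have hnx' : ∀ x, x < nx x := fun x => hnx x x rfl
  obtain ⟨w0, -⟩ := bd (Z := (∅ : Set W)) (by simpa using zero_lt_one.trans hW1)
  obtain ⟨e, he⟩ := exists_rec (K := K) (β := W) fun j r =>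
    if h : ∃ d, IsLUB (range fun i : Iio j => nx (max (r i i.2)
      (G i fun k => if hk : k ≤ i then r k (hk.trans_lt i.2) else w0))) d then h.choose else w0
  have h1 : ∀ j, IsLUB (range fun i : Iio j => nx (max (e i) (G i e))) (e j) := by
    intro j
    have e1 : (fun i : Iio j => nx (max (e i) (G i fun k => if k ≤ i.1 then e k else w0))) =
        fun i : Iio j => nx (max (e i) (G i e)) :=
      funext fun i => by rw [hG i _ e (fun k hk => if_pos hk)]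
    obtain ⟨b, hb⟩ := bd_range (fun i : Iio j => nx (max (e i) (G i e)))
      ((mk_set_le _).trans_lt hW)
    have h2 : ∃ d, IsLUB (range fun i : Iio j => nx (max (e i) (G i e))) d :=
      exists_lub (b := b) (by rintro _ ⟨i, rfl⟩; exact (hb i).le)
    have h3 := he j
    simp only [dite_eq_ite, e1] at h3
    rw [dif_pos h2] at h3
    rw [h3]
    exact h2.choose_spec
  have h2 : ∀ i j, i < j → max (e i) (G i e) < e j := fun i j h =>
    (hnx' _).trans_le ((h1 j).1 ⟨⟨i, h⟩, rfl⟩)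
  have h3 : StrictMono e := fun i j h => (le_max_left _ _).trans_lt (h2 i j h)
  obtain ⟨b, hb⟩ := bd_range e hW
  obtain ⟨δ, hδ⟩ := exists_lub (Z := range e) (b := b) (by rintro _ ⟨i, rfl⟩; exact (hb i).le)
  refine ⟨e, δ, ⟨h3, fun {j} hj c hc => (h1 j).2 ?_⟩,
    fun i j h => (le_max_right _ _).trans_lt (h2 i j h), fun i => ?_, fun β hβ => ?_⟩
  · rintro _ ⟨i, rfl⟩
    obtain ⟨k, hk1, hk2⟩ := hj.isSuccPrelimit.lt_iff_exists_lt.1 i.2
    exact ((h1 k).1 ⟨⟨i, hk2⟩, rfl⟩).trans (hc ⟨k, hk1, rfl⟩)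
  · obtain ⟨k, hk⟩ := bd (Z := {i}) (by simpa using hK1)
    exact (h3 (hk i rfl)).trans_le (hδ.1 ⟨k, rfl⟩)
  · by_contra hc
    push Not at hc
    exact hβ.not_ge (hδ.2 (by rintro _ ⟨i, rfl⟩; exact hc i))

theorem small_bd {e : K → W} (he : Monotone e) {δ : W} (h2 : ∀ β < δ, ∃ i, β < e i) {Z : Set W}
    (hZ : Z ⊆ Iio δ) (h : #Z < cof K) : ∃ i, ∀ z ∈ Z, z < e i := by
  choose j hj using fun z : Z => h2 z (hZ z.2)
  obtain ⟨i, hi⟩ := bd_range j h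
  exact ⟨i, fun z hz => (hj ⟨z, hz⟩).trans_le (he (hi _).le)⟩

/-- Every small subset is strictly bounded inside the set. -/
def Good (κ : Cardinal.{u}) (Y : Set W) : Prop := ∀ Z ⊆ Y, #Z < κ → ∃ y ∈ Y, ∀ z ∈ Z, z < y

theorem cof_ord_toType {κ : Cardinal.{u}} (h : κ.IsRegular) : cof κ.ord.ToType = κ := by
  rw [Ordinal.cof_toType, h.cof_ord]

/-- Club guessing. -/
theorem club_guess {κ : Cardinal.{u}} (hκ : κ.IsRegular) (h0 : ℵ₀ < κ) (hW : succ κ < cof W) :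
    ∃ C : W → Set W, ∀ E, IsClub E → ∃ α, C α ⊆ E ∧ Good κ (C α) := by
  classical
  by_contra hc
  push Not at hc
  choose A hA1 hA2 hA3 using exists_small (W := W)
  choose nxt hn1 hn2 using fun E : Set W => hc fun α => A α ∩ E
  have hκW : κ < cof W := (lt_succ κ).trans hW
  have hW0 : cof W ≠ ℵ₀ := (h0.trans hκW).ne'
  obtain ⟨Es, hEs⟩ := exists_rec (K := (succ κ).ord.ToType) (β := Set W) fun j r =>
    ⋂ i : Iio j, nxt (r i i.2)
  have h1 : IsClub (⋂ i, nxt (Es i)) := IsClub.iInter hW0 (by simpa using hW) fun i => hn1 _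
  have hcof := cof_ord_toType hκ
  choose G hG1 hG2 using h1.isCofinal
  obtain ⟨e, δ, he, k1, k2, k3⟩ := exists_normal (K := κ.ord.ToType) (W := W)
    (by rw [hcof]; exact h0.le) (by simpa using hκW) (fun i e => G (e i))
    (fun i e e' h => by rw [h i le_rfl])
  have h2 : Cb δ (⋂ i, nxt (Es i)) := ⟨fun γ _ Z hZ hne hl => h1.isLUB_mem hZ hne hl, fun β hβ => by
    obtain ⟨i, hi⟩ := k3 β hβ
    obtain ⟨j, hj⟩ := bd (Z := {i}) (by simpa [hcof] using one_lt_aleph0.trans h0)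
    exact ⟨_, hG1 (e i), hi.le.trans (hG2 _), (k1 i j (hj i rfl)).trans (k2 j)⟩⟩
  have h3 := (club_preimage he k2 k3 (by rwa [hcof]) (hA2 δ)).inter (by rw [hcof]; exact h0.ne')
    (club_preimage he k2 k3 (by rwa [hcof]) h2)
  have h4 : ∀ j, Good κ (A δ ∩ Es j) := by
    intro j Z hZ hZ'
    obtain ⟨i, hi⟩ := small_bd he.monotone k3 (fun z hz => hA1 δ (hZ hz).1) (by rwa [hcof])
    obtain ⟨i', hi1, hi2⟩ := h3.isCofinal i
    refine ⟨e i', ⟨hi1.1, ?_⟩, fun z hz => (hi z hz).trans_le (he.monotone hi2)⟩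
    rw [hEs]
    exact mem_iInter.2 fun k => mem_iInter.1 hi1.2 k
  have h5 : ∀ j, ∃ x ∈ A δ ∩ Es j, x ∉ nxt (Es j) := fun j =>
    not_subset.1 fun h => hn2 _ δ h (h4 j)
  choose x hx1 hx2 using h5
  have h6 : ∀ i j, i < j → x i ≠ x j := by
    intro i j h e'
    have := (hx1 j).2
    rw [hEs] at this
    exact hx2 i (e' ▸ mem_iInter.1 this ⟨i, h⟩)
  have h7 : #(succ κ).ord.ToType ≤ #(A δ) :=
    mk_le_of_injective (f := fun j => ⟨x j, (hx1 j).1⟩) fun i j h => by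
      have h' : x i = x j := congrArg Subtype.val h
      rcases lt_trichotomy i j with h1 | h1 | h1
      · exact absurd h' (h6 i j h1)
      · exact h1
      · exact absurd h'.symm (h6 j i h1)
  have h8 := hA3 δ (range e) fun β hβ => by
    obtain ⟨i, hi⟩ := k3 β hβ
    exact ⟨_, ⟨i, rfl⟩, hi.le, k2 i⟩
  have h9 : #(range e) ≤ κ := by simpa using mk_range_le (f := e)
  rw [mk_ord_toType] at h7
  have := h7.trans (h8.trans ((add_le_add h9 h9).trans_eq (add_eq_self h0.le)))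
  exact (lt_succ κ).not_ge this

end Pool.Agent.Lib.MP_e7ecb4_lc.Sh
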