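import Pool.Agent.Lib.MP_e7ecb4_lc.Sh.Clubs

/-!
An increasing sequence of functions with an exact upper bound (after Shelah).
-/

set_option autoImplicit false
set_option linter.unusedSectionVars false

namespace Pool.Agent.Lib.MP_e7ecb4_lc.Sh

open Cardinal Order Set Filter

universe u

variable {M : Type u} [LinearOrder M] [WellFoundedLT M]

/-- `l` is the limit of the increasing sequence `c` of infinite cardinals. -/
structure Lim (c : ℕ → Cardinal.{u}) (l : Cardinal.{u}) : Prop where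
  mono : Monotone c
  inf : ∀ n, ℵ₀ ≤ c n
  lt : ∀ n, c n < l
  cof : ∀ k < l, ∃ n, k < c n

variable {c : ℕ → Cardinal.{u}} {l : Cardinal.{u}}

theorem Lim.succ_lt (h : Lim c l) {k : Cardinal.{u}} (hk : k < l) : succ k < l := by
  obtain ⟨n, hn⟩ := h.cof k hk
  exact (succ_le_of_lt hn).trans_lt (h.lt n)

theorem Lim.aleph0_lt (h : Lim c l) : ℵ₀ < l := (h.inf 0).trans_lt (h.lt 0)

theorem Lim.ev (h : Lim c l) {k : Cardinal.{u}} (hk : k < l) : ∀ᶠ n in atTop, k ≤ c n := by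
  obtain ⟨n, hn⟩ := h.cof k hk
  exact eventually_atTop.2 ⟨n, fun m hm => hn.le.trans (h.mono hm)⟩

theorem exists_parts (h : Lim c l) {δ : M} (hδ : #(Iio δ) ≤ l) {A : Set M} (hA : A ⊆ Iio δ) :
    ∃ P : ℕ → Set M, (∀ n, P n ⊆ Iio δ ∧ #(P n) ≤ c n) ∧ (∀ β < δ, ∀ᶠ n in atTop, β ∈ P n) ∧
      (#A < l → ∀ᶠ n in atTop, A ⊆ P n) := by
  classical
  have h1 : l ≤ #(Σ n, (c n).out) := by
    by_contra hc
    obtain ⟨n, hn⟩ := h.cof _ (not_le.1 hc)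
    refine hn.not_ge ?_
    have := mk_le_of_injective (sigma_mk_injective (β := fun n => (c n).out) (i := n))
    rwa [mk_out] at this
  obtain ⟨j⟩ := (le_def _ _).1 (hδ.trans h1)
  have h2 : ∀ n, #(range (Sigma.mk (β := fun n => (c n).out) n)) ≤ c n := fun n =>
    mk_range_le.trans_eq (mk_out _)
  have h3 : ∀ n, #{t : Σ n, (c n).out | t.1 ≤ n} ≤ c n := by
    intro n
    induction n with
    | zero =>
      refine le_trans (mk_le_mk_of_subset ?_) (h2 0)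
      rintro ⟨m, x⟩ hm
      obtain rfl : m = 0 := Nat.le_zero.1 hm
      exact ⟨x, rfl⟩
    | succ n ih =>
      refine le_trans (mk_le_mk_of_subset (t := {t | t.1 ≤ n} ∪ range (Sigma.mk (n + 1))) ?_)
        ((mk_union_le _ _).trans ((add_le_add (ih.trans (h.mono n.le_succ)) (h2 _)).trans_eq
          (add_eq_self (h.inf _))))
      rintro ⟨m, x⟩ hm
      rcases Nat.le_succ_iff.1 hm with h' | rfl
      · exact Or.inl h'
      · exact Or.inr ⟨x, rfl⟩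
  refine ⟨fun n => Subtype.val '' (j ⁻¹' {t | t.1 ≤ n}) ∪ if #A ≤ c n then A else ∅,
    fun n => ⟨union_subset ?_ ?_, ?_⟩, fun β hβ => ?_, fun hl => ?_⟩
  · rintro _ ⟨x, -, rfl⟩; exact x.2
  · split_ifs
    exacts [hA, empty_subset _]
  · refine (mk_union_le _ _).trans ((add_le_add (mk_image_le.trans
      ((mk_preimage_of_injective _ _ j.injective).trans (h3 n))) ?_).trans_eq
      (add_eq_self (h.inf n)))
    split_ifs with h'
    · exact h'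
    · simp
  · exact eventually_atTop.2 ⟨(j ⟨β, hβ⟩).1, fun n hn => Or.inl ⟨⟨β, hβ⟩, hn, rfl⟩⟩
  · filter_upwards [h.ev hl] with n hn
    rw [if_pos hn]
    exact subset_union_right

theorem exists_seq (h : Lim c l) (hM : l < cof M) (hI : ∀ δ : M, #(Iio δ) ≤ l) :
    ∃ (b : ℕ → M) (f : M → ℕ → M) (A : M → Set M), (∀ α n, f α n < b n) ∧
      (∀ α β, α < β → ∀ᶠ n in atTop, f α n < f β n) ∧ (∀ δ, Cb δ (A δ)) ∧
      ∀ δ Y, Cf δ Y → #Y < l → ∀ᶠ n in atTop, ∀ β ∈ A δ, f β n ≤ f δ n := by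
  classical
  choose A hA1 hA2 hA3 using exists_small (W := M)
  choose P hP1 hP2 hP3 using fun δ => exists_parts h (hI δ) (hA1 δ)
  have hb : ∀ n, ∃ b : M, ∀ Z : Set M, ∃ y < b, Z ⊆ Iio b → #Z ≤ c n → ∀ z ∈ Z, z < y := by
    intro n
    have hr := cof_ord_toType (isRegular_succ (h.inf n))
    obtain ⟨e, δ, he, -, k2, k3⟩ := exists_normal (K := (succ (c n)).ord.ToType) (W := M)
      (by rw [hr]; exact (h.inf n).trans (le_succ _))
      (by simpa using (h.succ_lt (h.lt n)).trans hM) (fun i e => e i) (fun i e e' h => h i le_rfl)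
    refine ⟨δ, fun Z => ?_⟩
    by_cases hZ : Z ⊆ Iio δ ∧ #Z ≤ c n
    · obtain ⟨i, hi⟩ := small_bd he.monotone k3 hZ.1 (by rw [hr]; exact lt_succ_iff.2 hZ.2)
      exact ⟨e i, k2 i, fun _ _ => hi⟩
    · obtain ⟨i, -⟩ := small_bd he.monotone k3 (empty_subset _)
        (by rw [hr, mk_eq_zero]; exact (isRegular_succ (h.inf n)).pos)
      exact ⟨e i, k2 i, fun h1 h2 => absurd ⟨h1, h2⟩ hZ⟩
  choose b y hy1 hy2 using hb
  obtain ⟨f, hf⟩ := exists_rec (K := M) (β := ℕ → M) fun δ r n =>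
    y n (range fun β : P δ n => r β ((hP1 δ n).1 β.2) n)
  have h1 : ∀ α n, f α n < b n := fun α n => by rw [hf]; exact hy1 _ _
  have h2 : ∀ δ n, ∀ β ∈ P δ n, f β n < f δ n := by
    intro δ n β hβ
    rw [hf δ]
    refine hy2 n _ ?_ (mk_range_le.trans (hP1 δ n).2) _ ⟨⟨β, hβ⟩, rfl⟩
    rintro _ ⟨x, rfl⟩
    exact h1 _ _
  refine ⟨b, f, A, h1, fun α β hαβ => (hP2 β α hαβ).mono fun n hn => h2 β n α hn, hA2,
    fun δ Y hY hl => ?_⟩
  refine (hP3 δ ((hA3 δ Y hY).trans_lt (add_lt_of_lt h.aleph0_lt.le hl hl))).mono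
    fun n hn β hβ => (h2 δ n β (hn hβ)).le

theorem bounding (h : Lim c l) (hM : l < cof M) {f : M → ℕ → M} {A : M → Set M}
    (hf : ∀ α β, α < β → ∀ᶠ n in atTop, f α n < f β n) (hA : ∀ δ, Cb δ (A δ))
    (hU : ∀ δ Y, Cf δ Y → #Y < l → ∀ᶠ n in atTop, ∀ β ∈ A δ, f β n ≤ f δ n)
    {S : Set M} (hS : #S < l) :
    ∃ ξ, ∀ ζ, ∀ᶠ n in atTop, ∀ s ∈ S, f ξ n ≤ s → f ζ n ≤ s := by
  classical
  by_contra hc
  push Not at hc
  choose nx hnx using hc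
  obtain ⟨κ, hκ, h0, hκl, hSκ⟩ : ∃ κ : Cardinal.{u}, κ.IsRegular ∧ ℵ₀ < κ ∧ κ < l ∧ #S < κ :=
    ⟨succ (max #S ℵ₀), isRegular_succ (le_max_right _ _), lt_succ_iff.2 (le_max_right _ _),
      h.succ_lt (max_lt hS h.aleph0_lt), lt_succ_iff.2 (le_max_left _ _)⟩
  have hθ : succ (succ κ) < l := h.succ_lt (h.succ_lt hκl)
  have hr := cof_ord_toType (isRegular_succ (h0.le.trans (le_succ κ)))
  have hΘ : #(succ (succ κ)).ord.ToType < cof M := by simpa using hθ.trans hM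
  have hΘ0 : ℵ₀ < cof (succ (succ κ)).ord.ToType := by
    rw [hr]; exact h0.trans ((lt_succ _).trans (lt_succ _))
  obtain ⟨C, hC⟩ := club_guess (W := (succ (succ κ)).ord.ToType) hκ h0
    (by rw [hr]; exact lt_succ _)
  obtain ⟨m0, -⟩ := bd (Z := (∅ : Set M))
    (by simpa using aleph0_pos.trans (h.aleph0_lt.trans hM))
  have hσ : ∀ Y : Set M, ∃ σ, (∃ τ, ∀ᶠ n in atTop, ∀ β ∈ Y, f β n ≤ f τ n) →
      ∀ᶠ n in atTop, ∀ β ∈ Y, f β n ≤ f σ n := fun Y => by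
    by_cases h' : ∃ τ, ∀ᶠ n in atTop, ∀ β ∈ Y, f β n ≤ f τ n
    · exact ⟨h'.choose, fun _ => h'.choose_spec⟩
    · exact ⟨m0, fun h'' => absurd h'' h'⟩
  choose σ hσ using hσ
  choose B hB using fun g : (succ (succ κ)).ord.ToType → M => bd_range g hΘ
  obtain ⟨e, δ, he, k1, k2, k3⟩ := exists_normal hΘ0.le hΘ
    (fun i e => max (B fun α => σ (e '' (C α ∩ Iic i))) (nx (e i))) (fun i e e' h' => by
      have : ∀ α, e '' (C α ∩ Iic i) = e' '' (C α ∩ Iic i) := fun α =>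
        image_congr fun k hk => h' k hk.2
      simp only [this, h' i le_rfl])
  have h1 := hU δ (range e) (fun β hβ => by
    obtain ⟨i, hi⟩ := k3 β hβ
    exact ⟨_, ⟨i, rfl⟩, hi.le, k2 i⟩) (mk_range_le.trans_lt (by simpa using hθ))
  obtain ⟨α, hα1, hα2⟩ := hC _ (club_preimage he k2 k3 hΘ0 (hA δ))
  obtain ⟨k0, hk0, -⟩ := hα2 ∅ (empty_subset _) (by simpa using hκ.pos)
  have hw : ∀ p : ℕ × S, ∃ k ∈ C α, (∃ k ∈ C α, p.2.1 < f (e k) p.1) → p.2.1 < f (e k) p.1 := by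
    intro p
    by_cases h' : ∃ k ∈ C α, p.2.1 < f (e k) p.1
    · obtain ⟨k, hk1, hk2⟩ := h'
      exact ⟨k, hk1, fun _ => hk2⟩
    · exact ⟨k0, hk0, fun h'' => absurd h'' h'⟩
  choose w hw1 hw2 using hw
  have hone : (1 : Cardinal.{u}) < κ := one_lt_aleph0.trans h0
  obtain ⟨i, hi0, hi⟩ := hα2 (range w) (by rintro _ ⟨p, rfl⟩; exact hw1 p)
    (mk_range_le.trans_lt (by simpa using mul_lt_of_lt h0.le h0 hSκ))
  obtain ⟨j, hj0, hj⟩ := hα2 {i} (by simpa using hi0) (by simpa using hone)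
  obtain ⟨k, hk1, hk⟩ := hα2 {j} (by simpa using hj0) (by simpa using hone)
  have hk2 := hk j rfl
  have h2 := hσ (e '' (C α ∩ Iic i)) ⟨δ, h1.mono fun n hn β hβ => by
    obtain ⟨x, hx, rfl⟩ := hβ
    exact hn _ (hα1 hx.1)⟩
  have h3 := hf _ _ ((hB (fun α => σ (e '' (C α ∩ Iic i))) α).trans
    ((le_max_left _ _).trans_lt (k1 i j (hj i rfl))))
  have h4 := hf _ _ ((le_max_right _ _).trans_lt (k1 j k hk2))
  obtain ⟨n, ⟨s, hs, hs1, hs2⟩, hn2, hn3, hn4⟩ :=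
    ((hnx (e j)).and_eventually (h2.and (h3.and h4))).exists
  have h5 := hw2 (n, ⟨s, hs⟩) ⟨k, hk1, hs2.trans hn4⟩
  have h6 := hn2 _ ⟨w (n, ⟨s, hs⟩), ⟨hw1 _, (hi _ ⟨_, rfl⟩).le⟩, rfl⟩
  exact lt_irrefl _ (h5.trans_le (h6.trans (hn3.le.trans hs1)))

theorem exists_pr : ∃ pr : Set M → M → M, ∀ S x, (∃ s ∈ S, x ≤ s) →
    pr S x ∈ S ∧ x ≤ pr S x ∧ ∀ s ∈ S, x ≤ s → pr S x ≤ s := by
  have : ∀ (S : Set M) (x : M), ∃ p, (∃ s ∈ S, x ≤ s) →
      p ∈ S ∧ x ≤ p ∧ ∀ s ∈ S, x ≤ s → p ≤ s := by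
    intro S x
    by_cases h : ∃ s ∈ S, x ≤ s
    · obtain ⟨p, hp, hm⟩ := (wellFounded_lt (α := M)).has_min {s ∈ S | x ≤ s} h
      exact ⟨p, fun _ => ⟨hp.1, hp.2, fun s hs hx => not_lt.1 (hm s ⟨hs, hx⟩)⟩⟩
    · exact ⟨x, fun h' => absurd h' h⟩
  choose pr hpr using this
  exact ⟨pr, hpr⟩

theorem exists_least (h : Lim c l) (hM : l < cof M) {b : ℕ → M} {f : M → ℕ → M}
    (hb : ∀ α n, f α n < b n) (hf : ∀ α β, α < β → ∀ᶠ n in atTop, f α n < f β n)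
    (hB : ∀ S : Set M, #S < l → ∃ ξ, ∀ ζ, ∀ᶠ n in atTop, ∀ s ∈ S, f ξ n ≤ s → f ζ n ≤ s) :
    ∃ g : ℕ → M, (∀ ζ, ∀ᶠ n in atTop, f ζ n ≤ g n) ∧
      ∀ g' : ℕ → M, (∀ ζ, ∀ᶠ n in atTop, f ζ n ≤ g' n) → ∀ᶠ n in atTop, g n ≤ g' n := by
  classical
  by_contra hc
  push Not at hc
  choose! im him1 him2 using hc
  obtain ⟨m0, -⟩ := bd (Z := (∅ : Set M))
    (by simpa using aleph0_pos.trans (h.aleph0_lt.trans hM))
  have : Nonempty M := ⟨m0⟩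
  choose! ξ hξ using hB
  obtain ⟨pr, hpr⟩ := exists_pr (M := M)
  obtain ⟨Ss, hSs⟩ := exists_rec (K := (succ ℵ₀ : Cardinal.{u}).ord.ToType) (β := Set M)
    fun j r => range b ∪ ⋃ i : Iio j,
      (r i i.2 ∪ range (im fun n => pr (r i i.2) (f (ξ (r i i.2)) n)))
  have h1 : ∀ j, (Ss j).Countable := by
    intro j
    induction j using WellFoundedLT.induction with
    | ind j ih =>
      have : Countable (Iio j) := mk_le_aleph0_iff.1
        (lt_succ_iff.1 (by simpa using mk_Iio_lt j (by simp)))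
      rw [hSs]
      exact (countable_range b).union
        (countable_iUnion fun i => (ih i i.2).union (countable_range _))
  have h2 : ∀ j α n, ∃ s ∈ Ss j, f α n ≤ s := fun j α n =>
    ⟨b n, by rw [hSs]; exact Or.inl ⟨n, rfl⟩, (hb α n).le⟩
  have h3 : ∀ i j, i < j → Ss i ∪ range (im fun n => pr (Ss i) (f (ξ (Ss i)) n)) ⊆ Ss j := by
    intro i j hij x hx
    rw [hSs j]
    exact Or.inr (mem_iUnion.2 ⟨⟨i, hij⟩, hx⟩)
  have h4 : ∀ j ζ, ∀ᶠ n in atTop, f ζ n ≤ pr (Ss j) (f (ξ (Ss j)) n) := fun j ζ =>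
    (hξ (Ss j) ((h1 j).le_aleph0.trans_lt h.aleph0_lt) ζ).mono fun n hn =>
      hn _ (hpr _ _ (h2 j _ n)).1 (hpr _ _ (h2 j _ n)).2.1
  obtain ⟨ζ, hζ⟩ := bd_range (fun j => ξ (Ss j)) (by simpa using (h.succ_lt h.aleph0_lt).trans hM)
  have hP : ℵ₀ < cof (succ ℵ₀ : Cardinal.{u}).ord.ToType := by
    rw [cof_ord_toType (isRegular_succ le_rfl)]; exact lt_succ _
  obtain ⟨p0, -⟩ := bd (Z := (∅ : Set (succ ℵ₀ : Cardinal.{u}).ord.ToType))
    (by rw [mk_eq_zero]; exact aleph0_pos.trans hP)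
  have h5 : ∀ n, ∃ i, ∀ j, pr (Ss i) (f ζ n) ≤ pr (Ss j) (f ζ n) := fun n => by
    obtain ⟨_, ⟨i, rfl⟩, hm⟩ := (wellFounded_lt (α := M)).has_min
      (range fun j => pr (Ss j) (f ζ n)) ⟨_, p0, rfl⟩
    exact ⟨i, fun j => not_lt.1 (hm _ ⟨j, rfl⟩)⟩
  choose t ht using h5
  obtain ⟨j, hj⟩ := bd_seq t hP
  obtain ⟨i, hi⟩ := bd (Z := {j}) (by rw [mk_singleton]; exact one_lt_aleph0.trans hP)
  obtain ⟨n, hn1, hn2, hn3⟩ := ((him2 _ (h4 j)).and_eventually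
    ((him1 _ (h4 j) ζ).and (hf _ _ (hζ j)))).exists
  have k1 := (hpr _ _ (h2 i ζ n)).2.2 _ (h3 j i (hi j rfl) (Or.inr ⟨n, rfl⟩)) hn2
  have k2 := (hpr _ _ (h2 j (ξ (Ss j)) n)).2.2 _ (hpr _ _ (h2 j ζ n)).1
    (hn3.le.trans (hpr _ _ (h2 j ζ n)).2.1)
  have k3 := (hpr _ _ (h2 j ζ n)).2.2 _ (h3 _ j (hj n) (Or.inl (hpr _ _ (h2 (t n) ζ n)).1))
    (hpr _ _ (h2 (t n) ζ n)).2.1
  exact lt_irrefl _ (hn1.trans_le (k2.trans (k3.trans ((ht n i).trans k1))))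

/-- An increasing sequence with an exact upper bound of large cofinality. -/
theorem exists_eub (h : Lim c l) (hM : l < cof M) (hI : ∀ δ : M, #(Iio δ) ≤ l) :
    ∃ (f : M → ℕ → M) (g : ℕ → M), (∀ α β, α < β → ∀ᶠ n in atTop, f α n < f β n) ∧
      (∀ ζ, ∀ᶠ n in atTop, f ζ n < g n) ∧
      ∀ S : Set M, #S < l → ∃ ξ, ∀ᶠ n in atTop, ∀ s ∈ S, s < g n → s < f ξ n := by
  obtain ⟨b, f, A, hb, hf, hA, hU⟩ := exists_seq h hM hI
  have hB := fun S hS => bounding h hM hf hA hU (S := S) hS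
  obtain ⟨g, hg1, hg2⟩ := exists_least h hM hb hf hB
  obtain ⟨pr, hpr⟩ := exists_pr (M := M)
  refine ⟨f, g, hf, fun ζ => ?_, fun S hS => ?_⟩
  · obtain ⟨ζ', hζ⟩ := bd (Z := {ζ})
      (by simpa using one_lt_aleph0.trans (h.aleph0_lt.trans hM))
    filter_upwards [hf _ _ (hζ ζ rfl), hg1 ζ'] with n h1 h2 using h1.trans_le h2
  · obtain ⟨ξ, hξ⟩ := hB (S ∪ range b) ((mk_union_le _ _).trans_lt (add_lt_of_lt h.aleph0_lt.le hS
      ((countable_range b).le_aleph0.trans_lt h.aleph0_lt)))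
    have h2 : ∀ n, ∃ s ∈ S ∪ range b, f ξ n ≤ s := fun n => ⟨b n, Or.inr ⟨n, rfl⟩, (hb ξ n).le⟩
    refine ⟨ξ, (hg2 (fun n => pr (S ∪ range b) (f ξ n)) fun ζ => (hξ ζ).mono fun n hn =>
      hn _ (hpr _ _ (h2 n)).1 (hpr _ _ (h2 n)).2.1).mono fun n hn s hs hsg => ?_⟩
    by_contra hc
    exact hsg.not_ge (hn.trans ((hpr _ _ (h2 n)).2.2 s (Or.inl hs) (not_lt.1 hc)))

end Pool.Agent.Lib.MP_e7ecb4_lc.Sh
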