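import Pool.Agent.Lib.MP_e7ecb4_lc.Sh.Eub
import Pool.Agent.Lib.MP_e7ecb4_lc.Defs
import Pool.Agent.Lib.MP_e7ecb4_lc.Order

/-!
A scale of length `l⁺` and the inequality `F(l⁺) > l⁺` for singular `l` of countable cofinality.
-/

set_option autoImplicit false
set_option linter.unusedSectionVars false

namespace Pool.Agent.Lib.MP_e7ecb4_lc.Sh

open Cardinal Order Set Filter

universe u

variable {M : Type u} [LinearOrder M] [WellFoundedLT M] {c : ℕ → Cardinal.{u}} {l : Cardinal.{u}}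

theorem exists_lim (h0 : ℵ₀ < l) (hc : l.ord.cof = ℵ₀) : ∃ c, Lim c l := by
  obtain ⟨s, hs1, hs2⟩ := exists_cof_eq l.ord.ToType
  rw [Ordinal.cof_toType, hc] at hs2
  obtain ⟨t, ht⟩ := (le_aleph0_iff_set_countable.1 hs2.le).exists_eq_range
    (nonempty_coe_sort.1 (mk_ne_zero_iff.1 (by rw [hs2]; exact aleph0_ne_zero)))
  have h1 : ∀ x : l.ord.ToType, #(Iic x) < l := fun x => by
    rw [← Iio_insert]
    exact mk_insert_le.trans_lt (add_lt_of_lt h0.le (by simpa using mk_Iio_lt x (by simp))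
      (one_lt_aleph0.trans h0))
  let c : ℕ → Cardinal.{u} := fun n => Nat.rec (max ℵ₀ #(Iic (t 0)))
    (fun k a => max a #(Iic (t (k + 1)))) n
  have hm : Monotone c := monotone_nat_of_le_succ fun n => le_max_left _ _
  have h2 : ∀ n, #(Iic (t n)) ≤ c n := fun n => by cases n <;> exact le_max_right _ _
  have h3 : ∀ n, ℵ₀ ≤ c n := fun n => (le_max_left _ _).trans (hm (Nat.zero_le n))
  refine ⟨c, hm, h3, fun n => ?_, fun k hk => ?_⟩
  · induction n with
    | zero => exact max_lt h0 (h1 _)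
    | succ n ih => exact max_lt ih (h1 _)
  · by_contra hcon
    push Not at hcon
    have h4 : (univ : Set l.ord.ToType) ⊆ ⋃ n : ULift.{u} ℕ, Iic (t n.down) := fun x _ => by
      obtain ⟨y, hy, hxy⟩ := hs1 x
      rw [ht] at hy
      obtain ⟨n, rfl⟩ := hy
      exact mem_iUnion.2 ⟨⟨n⟩, hxy⟩
    have h5 := (mk_le_mk_of_subset h4).trans ((mk_iUnion_le _).trans
      (mul_le_mul' le_rfl (ciSup_le' fun n : ULift.{u} ℕ => (h2 n.down).trans (hcon _))))
    simp only [mk_univ, mk_ord_toType, mk_uLift, mk_nat, lift_aleph0] at h5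
    exact h5.not_gt (mul_lt_of_lt h0.le h0 hk)

theorem exists_cf (x : M) : ∃ Y : Set M, Y ⊆ Iio x ∧ Cf x Y ∧ #Y = cof (Iio x) ∧
    ∀ Z ⊆ Iio x, #Z < cof (Iio x) → ∃ y ∈ Y, ∀ z ∈ Z, z < y := by
  obtain ⟨s, hs1, hs2⟩ := exists_cof_eq (Iio x)
  refine ⟨Subtype.val '' s, ?_, fun β hβ => ?_, by rw [mk_image_eq Subtype.val_injective, hs2],
    fun Z hZ hZ' => ?_⟩
  · rintro _ ⟨y, -, rfl⟩; exact y.2
  · obtain ⟨y, hy1, hy2⟩ := hs1 ⟨β, hβ⟩
    exact ⟨y, ⟨y, hy1, rfl⟩, hy2, y.2⟩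
  · obtain ⟨b, hb⟩ := bd (Z := (Subtype.val ⁻¹' Z : Set (Iio x)))
      ((mk_preimage_of_injective _ _ Subtype.val_injective).trans_lt hZ')
    obtain ⟨y, hy1, hy2⟩ := hs1 b
    exact ⟨y, ⟨y, hy1, rfl⟩, fun z hz => lt_of_lt_of_le (hb ⟨z, hZ hz⟩ hz) hy2⟩

/-- Shelah's scale of length `l⁺`. -/
theorem exists_scale (h : Lim c l) (hc : l.ord.cof = ℵ₀) (hM : l < cof M)
    (hI : ∀ δ : M, #(Iio δ) ≤ l) :
    ∃ (Y : ℕ → Set M) (s : M → ∀ k, Y k), (∀ k, Nonempty (Y k)) ∧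
      (∀ n m : ℕ, n ≤ m → ∀ g : (∀ k : Fin n, Y k) → Y m, ∃ b, ∀ t, g t < b) ∧
      ∀ g : ∀ k, Y k, ∃ ξ, ∀ β, ξ < β → ∀ᶠ k in atTop, g k < s β k := by
  classical
  obtain ⟨f, g, hf, hg, hk⟩ := exists_eub h hM hI
  choose Y hY1 hY2 hY3 hY4 using exists_cf (M := M)
  have h1 : ∀ x : M, cof (Iio x) < l := fun x =>
    lt_of_le_of_ne ((cof_le_cardinalMk _).trans (hI x)) fun e => by
      have := cof_ord_cof (Iio x)
      rw [e, hc] at this
      exact h.aleph0_lt.ne this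
  have h2 : ∀ k < l, ∀ᶠ n in atTop, k < cof (Iio (g n)) := by
    intro k hkl
    obtain ⟨ξ, hξ⟩ := hk (⋃ n : ULift.{u} ℕ, if cof (Iio (g n.down)) ≤ k then Y (g n.down) else ∅)
      (by
        refine ((mk_iUnion_le _).trans (mul_le_mul' le_rfl (ciSup_le' (a := k)
          fun n : ULift.{u} ℕ => ?_))).trans_lt
          (by simpa using mul_lt_of_lt h.aleph0_lt.le h.aleph0_lt hkl)
        split_ifs with h'
        · rwa [hY3]
        · simp)
    filter_upwards [hξ, hg ξ] with n hn1 hn2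
    by_contra hcon
    obtain ⟨y, hy1, hy2, hy3⟩ := hY2 _ _ hn2
    exact (hn1 y (mem_iUnion.2 ⟨⟨n⟩, by rwa [if_pos (not_lt.1 hcon)]⟩) hy3).not_ge hy2
  have h3 : ∀ n, ∃ m, n < m ∧ max ℵ₀ (cof (Iio (g n))) < cof (Iio (g m)) := fun n =>
    ((eventually_gt_atTop n).and (h2 _ (max_lt h.aleph0_lt (h1 _)))).exists
  choose nx hn1 hn2 using h3
  let r : ℕ → ℕ := fun k => nx^[k + 1] 0
  have hr : ∀ k, r (k + 1) = nx (r k) := fun k => Function.iterate_succ_apply' _ _ _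
  have r1 : StrictMono r := strictMono_nat_of_lt_succ fun k => by rw [hr]; exact hn1 _
  have r2 : StrictMono fun k => cof (Iio (g (r k))) := strictMono_nat_of_lt_succ fun k => by
    rw [hr]; exact (le_max_right _ _).trans_lt (hn2 _)
  have r3 : ∀ k, ℵ₀ < cof (Iio (g (r k))) := fun k =>
    ((le_max_left _ _).trans_lt (hn2 0)).trans_le (r2.monotone (Nat.zero_le k))
  have r4 : ∀ k, Nonempty (Y (g (r k))) := fun k =>
    mk_ne_zero_iff.1 (by rw [hY3]; exact (aleph0_pos.trans (r3 k)).ne')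
  have hs : ∀ α k, ∃ y : Y (g (r k)), f α (r k) < g (r k) → f α (r k) ≤ y := fun α k => by
    by_cases h' : f α (r k) < g (r k)
    · obtain ⟨y, hy1, hy2, -⟩ := hY2 _ _ h'
      exact ⟨⟨y, hy1⟩, fun _ => hy2⟩
    · exact ⟨(r4 k).some, fun h'' => absurd h'' h'⟩
  choose s hs using hs
  refine ⟨fun k => Y (g (r k)), s, r4, fun n m hnm G => ?_, fun G => ?_⟩
  · obtain ⟨y, hy1, hy2⟩ := hY4 (g (r m)) (range fun t => (G t).1)
      (by rintro _ ⟨t, rfl⟩; exact hY1 _ (G t).2) (mk_range_le.trans_lt (by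
        rw [mk_pi, prod_eq_of_fintype]
        simp only [lift_id', hY3]
        refine Finset.prod_induction _ (fun x => x < cof (Iio (g (r m))))
          (fun a b ha hb => mul_lt_of_lt (r3 m).le ha hb) (one_lt_aleph0.trans (r3 m))
          (fun k _ => r2 (k.2.trans_le hnm))))
    exact ⟨⟨y, hy1⟩, fun t => hy2 _ ⟨t, rfl⟩⟩
  · obtain ⟨ξ, hξ⟩ := hk (range fun k => (G k).1)
      ((countable_range _).le_aleph0.trans_lt h.aleph0_lt)
    refine ⟨ξ, fun β hβ => ?_⟩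
    filter_upwards [r1.tendsto_atTop.eventually (hξ.and ((hf _ _ hβ).and (hg β)))] with k hk'
    exact ((hk'.1 _ ⟨k, rfl⟩ (hY1 _ (G k).2)).trans hk'.2.1).trans_le (hs β k hk'.2.2)

theorem succ_singular (h0 : ℵ₀ < l) (hc : l.ord.cof = ℵ₀) (m : Cardinal.{u})
    (hm : Bound (succ l) m) : succ l < m := by
  obtain ⟨c, h⟩ := exists_lim h0 hc
  have hr := cof_ord_toType (isRegular_succ h0.le)
  have hI : ∀ δ : (succ l).ord.ToType, #(Iio δ) < succ l := fun δ => by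
    simpa using mk_Iio_lt δ (by simp)
  obtain ⟨Y, s, hne, hb, hdom⟩ := exists_scale (M := (succ l).ord.ToType) h hc
    (by rw [hr]; exact lt_succ l) (fun δ => lt_succ_iff.1 (hI δ))
  have hE : {k : ℕ | Even k}.Infinite := infinite_of_injective_forall_mem
    (f := fun n : ℕ => 2 * n) (fun a b hab => by simpa using hab) (fun n => even_two_mul n)
  have hO : {k : ℕ | ¬ Even k}.Infinite := infinite_of_injective_forall_mem
    (f := fun n : ℕ => 2 * n + 1) (fun a b hab => by simpa using hab) (fun n => by simp)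
  have hgt : ∀ x : (succ l).ord.ToType, ∃ y, x < y := fun x => by
    obtain ⟨y, hy⟩ := bd (Z := {x})
      (by rw [hr, mk_singleton]; exact one_lt_aleph0.trans (h0.trans (lt_succ l)))
    exact ⟨y, hy x rfl⟩
  by_contra hlt
  obtain ⟨S, hS1, hS2, hS3⟩ := @hm (succ l).ord.ToType
    (partialOrderOfSO (Rel (L := fun k => Y k) {k | Even k} {k | ¬ Even k} s)) (by
      intro A hA hcard
      obtain ⟨a, ha, b, hb', hab⟩ := exists_rel (L := fun k => Y k) (f := s) (X := A)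
        (O := {k | ¬ Even k}) hE (disjoint_left.2 fun k h1 h2 => h2 h1) hb (fun g => by
          obtain ⟨ξ, hξ⟩ := hdom g
          obtain ⟨y, hy⟩ := hgt ξ
          by_contra hcon
          refine ((mk_le_mk_of_subset fun x hx => ?_).trans_lt (hI y)).ne hcard
          by_contra hx'
          exact hcon ⟨x, hx, (hξ x (hy.trans_le (not_lt.1 hx'))).mono fun k hk _ => hk⟩)
      have hne : a ≠ b := by
        rintro rfl
        exact Rel.irrefl _ _ s a hab
      exact hA ha hb' hne (Or.inr hab))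
  choose g hg using fun D : S => directed_bdd (L := fun k => Y k) (E := {k | Even k})
    (O := {k | ¬ Even k}) (f := s) (hS1 D D.2).2
  choose ξ hξ using fun D : S => hdom (g D)
  obtain ⟨β, hβ⟩ := bd_range ξ (by rw [hr]; exact hS2.trans_le (not_lt.1 hlt))
  obtain ⟨D, hD, hβD⟩ : β ∈ ⋃₀ S := by rw [hS3]; trivial
  obtain ⟨k, hk1, hk2⟩ := ((Nat.frequently_atTop_iff_infinite.2 hO).and_eventually
    (hξ ⟨D, hD⟩ β (hβ _))).exists
  exact hk2.not_ge (hg ⟨D, hD⟩ β hβD k hk1)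

end Pool.Agent.Lib.MP_e7ecb4_lc.Sh
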